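import Pool.Agent.Helper228.Gain.Defs

open scoped ENNReal
open MeasureTheory Set

namespace Pool.Agent.Helper228.Gain

variable {X Y : Type} [NormedAddCommGroup X] [NormedSpace ℝ X]
    [NormedAddCommGroup Y] [NormedSpace ℝ Y]

theorem det_lower {S : X →L[ℝ] Y} {F : Set X} {n : ℕ} {b : ℝ}
    (h : ∀ L : Fin n → X →L[ℝ] ℝ, ∃ f ∈ F, -f ∈ F ∧ (∀ i, L i f = 0) ∧ b ≤ ‖S f‖) :
    ENNReal.ofReal b ≤ detErr S F n := by
  refine le_iInf (fun L => le_iInf (fun φ => ?_))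
  obtain ⟨f, hf, hf', h0, hb⟩ := h L
  have h1 := le_iSup₂ (f := fun (f : X) (_ : f ∈ F) => ‖S f - φ (fun i => L i f)‖ₑ) f hf
  have h2 := le_iSup₂ (f := fun (f : X) (_ : f ∈ F) => ‖S f - φ (fun i => L i f)‖ₑ) (-f) hf'
  have e1 : (fun i => L i f) = fun _ => (0:ℝ) := by funext i; exact h0 i
  have e2 : (fun i => L i (-f)) = fun _ => (0:ℝ) := by funext i; rw [map_neg, h0 i, neg_zero]
  simp only [e1] at h1
  simp only [e2] at h2
  set y := φ (fun _ => 0) with hy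
  have h3 : ‖S f‖ ≤ max ‖S f - y‖ ‖S (-f) - y‖ := by
    by_contra hcon
    rw [not_le, max_lt_iff] at hcon
    have h4 : ‖(S f - y) - (S (-f) - y)‖ ≤ ‖S f - y‖ + ‖S (-f) - y‖ := norm_sub_le _ _
    have h5 : (S f - y) - (S (-f) - y) = (2:ℝ) • S f := by
      rw [map_neg, two_smul]; abel
    rw [h5, norm_smul] at h4
    norm_num at h4
    have h6 : S (-f) - y = -S f - y := by rw [map_neg]
    rw [h6] at hcon
    linarith [hcon.1, hcon.2]
  rcases le_max_iff.1 (hb.trans h3) with h4 | h4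
  · refine le_trans ?_ h1
    rw [← ofReal_norm]
    exact ENNReal.ofReal_le_ofReal h4
  · refine le_trans ?_ h2
    rw [← ofReal_norm]
    exact ENNReal.ofReal_le_ofReal h4

/-- an algorithm with finitely many outcomes -/
theorem ran_upper {S : X →L[ℝ] Y} {F : Set X} {n : ℕ} {B : ℝ} (hB : 0 ≤ B)
    {Ω : Type} [Fintype Ω] [Nonempty Ω] {κ : Type} [Fintype κ] (hκ : Fintype.card κ ≤ n)
    (L : Ω → κ → X →L[ℝ] ℝ) (φ : Ω → (κ → ℝ) → Y) (hφ : ∀ ω, Continuous (φ ω))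
    (h : ∀ f ∈ F, ∑ ω, ‖S f - φ ω (fun i => L ω i f)‖ ≤ Fintype.card Ω * B) :
    ranErr S F n ≤ ENNReal.ofReal B := by
  classical
  obtain ⟨e⟩ : Nonempty (κ ↪ Fin n) := by
    rw [Function.Embedding.nonempty_iff_card_le]; simpa using hκ
  let mΩ : MeasurableSpace Ω := ⊤
  set P : Measure Ω := (Fintype.card Ω : ℝ≥0∞)⁻¹ • Measure.count with hP
  have hcard : (Fintype.card Ω : ℝ≥0∞) ≠ 0 := by
    simp [Fintype.card_ne_zero]
  have hprob : IsProbabilityMeasure P := by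
    constructor
    rw [hP, Measure.smul_apply, Measure.count_univ, smul_eq_mul]
    have : ENat.card Ω = (Fintype.card Ω : ℕ∞) := by simp
    rw [this]
    exact ENNReal.inv_mul_cancel hcard (by simp)
  let L' : Ω → Fin n → X →L[ℝ] ℝ := fun ω j =>
    if hj : ∃ i, e i = j then L ω (Classical.choose hj) else 0
  have hL' : ∀ ω i, L' ω (e i) = L ω i := by
    intro ω i
    have hj : ∃ i', e i' = e i := ⟨i, rfl⟩
    simp only [L', dif_pos hj]
    congr 1
    exact e.injective (Classical.choose_spec hj)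
  let φ' : Ω → (Fin n → ℝ) → Y := fun ω y => φ ω (fun i => y (e i))
  have hval : ∀ ω (f : X), φ' ω (fun j => L' ω j f) = φ ω (fun i => L ω i f) := by
    intro ω f
    simp only [φ', hL']
  have hmeas : @Measurable (Ω × F) Y (@Prod.instMeasurableSpace Ω F mΩ (borel F)) (borel Y)
      (fun p => φ' p.1 (fun i => L' p.1 i (p.2 : X))) := by
    let : MeasurableSpace F := borel F
    have : BorelSpace F := ⟨rfl⟩
    let : MeasurableSpace Y := borel Y
    have : BorelSpace Y := ⟨rfl⟩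
    refine measurable_from_prod_countable_right (fun ω => ?_)
    refine Continuous.measurable ?_
    simp only [hval]
    refine (hφ ω).comp ?_
    exact continuous_pi (fun i => (L ω i).continuous.comp continuous_subtype_val)
  let A : RandAlg X Y F n := ⟨Ω, mΩ, P, hprob, L', φ', hmeas⟩
  refine iInf_le_of_le A (iSup₂_le (fun f hf => ?_))
  show @lintegral Ω mΩ P (fun ω => ‖S f - φ' ω (fun i => L' ω i f)‖ₑ) ≤ _
  simp only [hval]
  rw [hP, lintegral_smul_measure, lintegral_count, tsum_fintype, smul_eq_mul]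
  have h1 : ∑ ω, ‖S f - φ ω (fun i => L ω i f)‖ₑ
      = ENNReal.ofReal (∑ ω, ‖S f - φ ω (fun i => L ω i f)‖) := by
    rw [ENNReal.ofReal_sum_of_nonneg (fun _ _ => norm_nonneg _)]
    exact Finset.sum_congr rfl (fun ω _ => (ofReal_norm _).symm)
  rw [h1]
  have h2 : ENNReal.ofReal (∑ ω, ‖S f - φ ω (fun i => L ω i f)‖)
      ≤ (Fintype.card Ω : ℝ≥0∞) * ENNReal.ofReal B := by
    refine (ENNReal.ofReal_le_ofReal (h f hf)).trans ?_
    rw [ENNReal.ofReal_mul (by positivity)]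
    simp
  calc (Fintype.card Ω : ℝ≥0∞)⁻¹ * ENNReal.ofReal (∑ ω, ‖S f - φ ω (fun i => L ω i f)‖)
      ≤ (Fintype.card Ω : ℝ≥0∞)⁻¹ * ((Fintype.card Ω : ℝ≥0∞) * ENNReal.ofReal B) := by gcongr
    _ = ENNReal.ofReal B := by
        rw [← mul_assoc, ENNReal.inv_mul_cancel hcard (by simp), one_mul]

theorem rate_le {z : ℕ → ℝ≥0∞} {β : ℝ} (h : ∀ α : ℝ, β < α → 0 < α →
    ∀ C : ℝ, 0 ≤ C → ∃ n : ℕ, 1 ≤ n ∧ ENNReal.ofReal (C * (n : ℝ) ^ (-α)) < z n) :
    rate z ≤ ENNReal.ofReal β := by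
  refine sSup_le ?_
  rintro t ⟨α, hα, rfl, C, hC, hz⟩
  refine ENNReal.ofReal_le_ofReal ?_
  by_contra hcon
  obtain ⟨n, hn, h1⟩ := h α (not_le.1 hcon) hα C hC
  exact absurd (hz n hn) (not_le.2 h1)

theorem le_rate {z : ℕ → ℝ≥0∞} {α : ℝ} (hα : 0 < α)
    (h : ∃ C : ℝ, 0 ≤ C ∧ ∀ n : ℕ, 1 ≤ n → z n ≤ ENNReal.ofReal (C * (n : ℝ) ^ (-α))) :
    ENNReal.ofReal α ≤ rate z := le_sSup ⟨α, hα, rfl, h⟩

end Pool.Agent.Helper228.Gain
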