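import Pool.Agent.Helper228.Gain.A

open scoped ENNReal InnerProductSpace
open MeasureTheory Set

namespace Pool.Agent.Helper228.Gain

theorem exists_small_residual {m n : ℕ} (hm : 0 < m)
    (ℓ : Fin n → EuclideanSpace ℝ (Fin m) →L[ℝ] ℝ) :
    ∃ (l : Fin m) (h : EuclideanSpace ℝ (Fin m)), ‖h‖ ^ 2 ≤ (n:ℝ) / m ∧
      ∀ i, ℓ i (EuclideanSpace.single l 1 - h) = 0 := by
  classical
  set V := EuclideanSpace ℝ (Fin m)
  set w : Fin n → V := fun i => (InnerProductSpace.toDual ℝ V).symm (ℓ i) with hw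
  have hwℓ : ∀ i x, ⟪w i, x⟫_ℝ = ℓ i x := fun i x => by
    rw [hw]; exact InnerProductSpace.toDual_symm_apply
  set W : Submodule ℝ V := Submodule.span ℝ (range w) with hW
  have hfin : Module.finrank ℝ W ≤ n := by
    have h0 := finrank_range_le_card (R := ℝ) w
    rw [Fintype.card_fin] at h0
    exact h0
  set b := stdOrthonormalBasis ℝ W with hb
  have h1 : ∀ x : V, ‖W.orthogonalProjectionOnto x‖ ^ 2 = ∑ a, ⟪(b a : V), x⟫_ℝ ^ 2 := by
    intro x
    rw [← b.sum_sq_norm_inner_right]
    refine Finset.sum_congr rfl (fun a _ => ?_)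
    rw [Real.norm_eq_abs, sq_abs]
    congr 1
    rw [← Submodule.inner_orthogonalProjectionOnto_eq_of_mem_left]
  have h2 : ∑ l : Fin m, ‖W.orthogonalProjectionOnto (EuclideanSpace.single l (1:ℝ))‖ ^ 2
      = Module.finrank ℝ W := by
    simp only [h1]
    rw [Finset.sum_comm]
    have h3 : ∀ a, ∑ l : Fin m, ⟪(b a : V), EuclideanSpace.single l (1:ℝ)⟫_ℝ ^ 2 = 1 := by
      intro a
      have h4 := (EuclideanSpace.basisFun (Fin m) ℝ).sum_sq_norm_inner_left (b a : V)
      have h5 : ‖(b a : V)‖ = 1 := by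
        have h50 := b.orthonormal.1 a
        exact h50
      rw [h5, one_pow] at h4
      refine Eq.trans (Finset.sum_congr rfl (fun l _ => ?_)) h4
      rw [EuclideanSpace.basisFun_apply, Real.norm_eq_abs, sq_abs]
    simp only [h3]
    simp
  have h6 : ∃ l : Fin m, ‖W.orthogonalProjectionOnto (EuclideanSpace.single l (1:ℝ))‖ ^ 2 ≤ (n:ℝ)/m := by
    by_contra hcon
    push Not at hcon
    have : Nonempty (Fin m) := ⟨⟨0, hm⟩⟩
    have h7 := Finset.sum_lt_sum_of_nonempty (s := (Finset.univ : Finset (Fin m)))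
      Finset.univ_nonempty (fun l _ => hcon l)
    rw [h2, Finset.sum_const, Finset.card_univ, Fintype.card_fin, nsmul_eq_mul] at h7
    have hm0 : (0:ℝ) < m := by exact_mod_cast hm
    rw [mul_div_cancel₀ _ hm0.ne'] at h7
    have : ((Module.finrank ℝ W : ℕ) : ℝ) ≤ n := by exact_mod_cast hfin
    linarith
  obtain ⟨l, hl⟩ := h6
  refine ⟨l, (W.orthogonalProjectionOnto (EuclideanSpace.single l (1:ℝ)) : V), ?_, fun i => ?_⟩
  · simpa using hl
  · rw [← hwℓ]
    have h8 : EuclideanSpace.single l (1:ℝ)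
        - (W.orthogonalProjectionOnto (EuclideanSpace.single l (1:ℝ)) : V) ∈ Wᗮ :=
      W.sub_starProjection_mem_orthogonal _
    exact (Submodule.mem_orthogonal W _).1 h8 (w i) (Submodule.subset_span (mem_range_self i))

/-! ### averaging over one coordinate -/

/-- sums over functions, refreshing one coordinate -/
theorem sum_update {ι β : Type} [Fintype ι] [DecidableEq ι] [Fintype β] (l : ι)
    (ψ : (ι → β) → ℝ) :
    ∑ h : ι → β, ∑ b : β, ψ (Function.update h l b) = Fintype.card β * ∑ h, ψ h := by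
  have h1 : ∑ h : ι → β, ∑ b : β, ψ (Function.update h l b)
      = ∑ p : (ι → β) × β, ψ (Function.update p.1 l p.2) := by
    rw [Fintype.sum_prod_type]
  have h2 : ∑ p : (ι → β) × β, ψ (Function.update p.1 l p.2) = ∑ p : (ι → β) × β, ψ p.1 := by
    let e : (ι → β) × β → (ι → β) × β := fun p => (Function.update p.1 l p.2, p.1 l)
    have he : Function.Involutive e := by
      rintro ⟨h, b⟩
      simp [e]
    exact Fintype.sum_equiv he.toPerm _ _ (fun p => rfl)
  rw [h1, h2, Fintype.sum_prod_type]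
  simp only [Finset.sum_const, Finset.card_univ, nsmul_eq_mul]
  rw [Finset.mul_sum]

/-- sign attached to a bit -/
def sg (b : Bool) : ℝ := if b then 1 else -1

theorem sg_sq (b : Bool) : sg b * sg b = 1 := by cases b <;> simp [sg]
theorem sg_abs (b : Bool) : |sg b| = 1 := by cases b <;> simp [sg]

theorem sum_sg {ι : Type} [Fintype ι] [DecidableEq ι] {l l' : ι} (h : l ≠ l') :
    ∑ s : ι → Bool, sg (s l) * sg (s l') = 0 := by
  have h1 := sum_update (β := Bool) l (fun s : ι → Bool => sg (s l) * sg (s l'))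
  have h2 : ∀ s : ι → Bool, ∑ b : Bool, sg (Function.update s l b l) * sg (Function.update s l b l')
      = 0 := by
    intro s
    simp only [Function.update_self, Function.update_of_ne h.symm]
    rw [← Finset.sum_mul]
    simp [sg]
  simp only [h2, Finset.sum_const_zero] at h1
  have h3 : ((Fintype.card Bool : ℕ) : ℝ) ≠ 0 := by simp
  rcases mul_eq_zero.1 h1.symm with h4 | h4
  · exact absurd h4 h3
  · exact h4

theorem sum_coll {m k : ℕ} {l j : Fin m} (h : l ≠ j) :
    (k:ℝ) * ∑ f : Fin m → Fin k, (if f l = f j then (1:ℝ) else 0) = (k:ℝ) ^ m := by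
  have h1 := sum_update (β := Fin k) l (fun f : Fin m → Fin k => if f l = f j then (1:ℝ) else 0)
  have h2 : ∀ f : Fin m → Fin k, ∑ b : Fin k, (if Function.update f l b l = Function.update f l b j
      then (1:ℝ) else 0) = 1 := by
    intro f
    simp only [Function.update_self, Function.update_of_ne h.symm]
    simp
  simp only [h2] at h1
  rw [Fintype.card_fin] at h1
  rw [← h1]
  simp

/-- the noise at coordinate `j` -/
noncomputable def noise {m k : ℕ} (j : Fin m) (v : Fin m → ℝ) (ω : (Fin m → Fin k) × (Fin m → Bool)) : ℝ :=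
  ∑ l, (if l ≠ j ∧ ω.1 l = ω.1 j then sg (ω.2 l) * sg (ω.2 j) * v l else 0)

theorem noise_add {m k : ℕ} (j : Fin m) (v w : Fin m → ℝ) (ω : (Fin m → Fin k) × (Fin m → Bool)) :
    noise j (fun l => v l + w l) ω = noise j v ω + noise j w ω := by
  unfold noise
  rw [← Finset.sum_add_distrib]
  refine Finset.sum_congr rfl (fun l _ => ?_)
  split_ifs <;> ring

theorem noise_l1 {m k : ℕ} (j : Fin m) (v : Fin m → ℝ) :
    (k:ℝ) * ∑ ω : (Fin m → Fin k) × (Fin m → Bool), |noise j v ω|
      ≤ (Fintype.card ((Fin m → Fin k) × (Fin m → Bool)) : ℝ) * ∑ l, |v l| := by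
  have h1 : ∀ ω : (Fin m → Fin k) × (Fin m → Bool), |noise j v ω|
      ≤ ∑ l, (if l ≠ j ∧ ω.1 l = ω.1 j then |v l| else 0) := by
    intro ω
    refine (Finset.abs_sum_le_sum_abs _ _).trans (Finset.sum_le_sum (fun l _ => ?_))
    split_ifs
    · rw [abs_mul, abs_mul, sg_abs, sg_abs, one_mul, one_mul]
    · simp
  have h2 : ∀ l : Fin m, (k:ℝ) * ∑ ω : (Fin m → Fin k) × (Fin m → Bool),
      (if l ≠ j ∧ ω.1 l = ω.1 j then |v l| else 0)
      ≤ (Fintype.card ((Fin m → Fin k) × (Fin m → Bool)) : ℝ) * |v l| := by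
    intro l
    by_cases hl : l = j
    · subst hl
      simp
      positivity
    · have h3 : ∀ ω : (Fin m → Fin k) × (Fin m → Bool), (if l ≠ j ∧ ω.1 l = ω.1 j then |v l| else 0)
          = (if ω.1 l = ω.1 j then (1:ℝ) else 0) * |v l| := by
        intro ω
        by_cases h4 : ω.1 l = ω.1 j <;> simp [hl, h4]
      simp only [h3]
      have h30 : ∑ ω : (Fin m → Fin k) × (Fin m → Bool), (if ω.1 l = ω.1 j then (1:ℝ) else 0)
          = (Fintype.card (Fin m → Bool) : ℝ) *
            ∑ f : Fin m → Fin k, (if f l = f j then (1:ℝ) else 0) := by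
        rw [Fintype.sum_prod_type, Finset.mul_sum]
        refine Finset.sum_congr rfl (fun f _ => ?_)
        refine (Finset.sum_congr rfl (fun y _ => rfl) :
          _ = ∑ y : Fin m → Bool, (if f l = f j then (1:ℝ) else 0)).trans ?_
        rw [Finset.sum_const, Finset.card_univ, nsmul_eq_mul]
      rw [← Finset.sum_mul, h30]
      have h5 := sum_coll (k := k) hl
      have h6 : (k:ℝ) * ((Fintype.card (Fin m → Bool) : ℝ) *
          (∑ f : Fin m → Fin k, (if f l = f j then (1:ℝ) else 0)) * |v l|)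
          = (Fintype.card (Fin m → Bool) : ℝ) * (k * ∑ f : Fin m → Fin k,
            (if f l = f j then (1:ℝ) else 0)) * |v l| := by ring
      rw [h6, h5]
      have h7 : (Fintype.card ((Fin m → Fin k) × (Fin m → Bool)) : ℝ)
          = (Fintype.card (Fin m → Bool) : ℝ) * (k:ℝ)^m := by
        rw [Fintype.card_prod, Nat.cast_mul, mul_comm]
        congr 1
        simp
      rw [h7]
  calc (k:ℝ) * ∑ ω : (Fin m → Fin k) × (Fin m → Bool), |noise j v ω|
      ≤ (k:ℝ) * ∑ ω : (Fin m → Fin k) × (Fin m → Bool),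
        ∑ l, (if l ≠ j ∧ ω.1 l = ω.1 j then |v l| else 0) := by
        refine mul_le_mul_of_nonneg_left (Finset.sum_le_sum (fun ω _ => h1 ω)) (Nat.cast_nonneg _)
    _ = ∑ l, (k:ℝ) * ∑ ω : (Fin m → Fin k) × (Fin m → Bool),
        (if l ≠ j ∧ ω.1 l = ω.1 j then |v l| else 0) := by
        rw [Finset.sum_comm, Finset.mul_sum]
    _ ≤ ∑ l, (Fintype.card ((Fin m → Fin k) × (Fin m → Bool)) : ℝ) * |v l| :=
        Finset.sum_le_sum (fun l _ => h2 l)
    _ = _ := by rw [Finset.mul_sum]

theorem noise_l2 {m k : ℕ} (j : Fin m) (v : Fin m → ℝ) :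
    (k:ℝ) * ∑ ω : (Fin m → Fin k) × (Fin m → Bool), (noise j v ω) ^ 2
      ≤ (Fintype.card ((Fin m → Fin k) × (Fin m → Bool)) : ℝ) * ∑ l, (v l) ^ 2 := by
  -- sum over the signs first
  have h1 : ∀ f : Fin m → Fin k, ∑ s : Fin m → Bool, (noise j v (f, s)) ^ 2
      = (Fintype.card (Fin m → Bool) : ℝ) * ∑ l, (if l ≠ j ∧ f l = f j then (v l) ^ 2 else 0) := by
    intro f
    have h2 : ∀ s : Fin m → Bool, (noise j v (f, s)) ^ 2 = ∑ l, ∑ l',
        (if l ≠ j ∧ f l = f j then (if l' ≠ j ∧ f l' = f j then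
          (sg (s l) * sg (s l')) * (v l * v l') else 0) else 0) := by
      intro s
      unfold noise
      rw [sq, Finset.sum_mul_sum]
      refine Finset.sum_congr rfl (fun l _ => Finset.sum_congr rfl (fun l' _ => ?_))
      by_cases h3 : l ≠ j ∧ f l = f j
      · by_cases h4 : l' ≠ j ∧ f l' = f j
        · simp only [if_pos h3, if_pos h4]
          have := sg_sq (s j)
          calc sg (s l) * sg (s j) * v l * (sg (s l') * sg (s j) * v l')
              = (sg (s j) * sg (s j)) * ((sg (s l) * sg (s l')) * (v l * v l')) := by ring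
            _ = _ := by rw [this, one_mul]
        · simp only [if_neg h4, mul_zero, if_pos h3]
      · simp only [if_neg h3, zero_mul]
    simp only [h2]
    rw [Finset.sum_comm, Finset.mul_sum]
    refine Finset.sum_congr rfl (fun l _ => ?_)
    rw [Finset.sum_comm]
    rw [Finset.sum_eq_single l]
    · by_cases h3 : l ≠ j ∧ f l = f j
      · simp only [if_pos h3, sg_sq, one_mul]
        rw [Finset.sum_const, Finset.card_univ, nsmul_eq_mul, sq]
      · simp only [if_neg h3]
        simp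
    · intro l' _ hl'
      by_cases h3 : l ≠ j ∧ f l = f j
      · by_cases h4 : l' ≠ j ∧ f l' = f j
        · simp only [if_pos h3, if_pos h4]
          rw [← Finset.sum_mul, sum_sg (Ne.symm hl'), zero_mul]
        · simp only [if_neg h4]
          simp
      · simp only [if_neg h3]
        simp
    · intro h; exact absurd (Finset.mem_univ l) h
  rw [Fintype.sum_prod_type]
  simp only [h1]
  rw [← Finset.mul_sum, Finset.sum_comm]
  have h2 : ∀ l : Fin m, (k:ℝ) * ∑ f : Fin m → Fin k, (if l ≠ j ∧ f l = f j then (v l) ^ 2 else 0)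
      ≤ (k:ℝ) ^ m * (v l) ^ 2 := by
    intro l
    by_cases hl : l = j
    · subst hl
      simp
      positivity
    · have h3 : ∀ f : Fin m → Fin k, (if l ≠ j ∧ f l = f j then (v l) ^ 2 else 0)
          = (if f l = f j then (1:ℝ) else 0) * (v l) ^ 2 := by
        intro f
        by_cases h4 : f l = f j <;> simp [hl, h4]
      simp only [h3]
      rw [← Finset.sum_mul, ← mul_assoc, sum_coll (k := k) hl]
  have h7 : (Fintype.card ((Fin m → Fin k) × (Fin m → Bool)) : ℝ)
      = (Fintype.card (Fin m → Bool) : ℝ) * (k:ℝ)^m := by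
    rw [Fintype.card_prod, Nat.cast_mul, mul_comm]
    congr 1
    simp
  rw [h7]
  calc (k:ℝ) * ((Fintype.card (Fin m → Bool) : ℝ) * ∑ l, ∑ f : Fin m → Fin k,
        (if l ≠ j ∧ f l = f j then (v l) ^ 2 else 0))
      = (Fintype.card (Fin m → Bool) : ℝ) * ∑ l, (k:ℝ) * ∑ f : Fin m → Fin k,
        (if l ≠ j ∧ f l = f j then (v l) ^ 2 else 0) := by
        rw [← Finset.mul_sum]; ring
    _ ≤ (Fintype.card (Fin m → Bool) : ℝ) * ∑ l, (k:ℝ) ^ m * (v l) ^ 2 := by
        refine mul_le_mul_of_nonneg_left (Finset.sum_le_sum (fun l _ => h2 l)) (Nat.cast_nonneg _)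
    _ = _ := by rw [← Finset.mul_sum]; ring

end Pool.Agent.Helper228.Gain
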