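import Pool.Agent.Helper228.Gain.B

open scoped ENNReal InnerProductSpace
open MeasureTheory Set

namespace Pool.Agent.Helper228.Gain

/-- `majority` families -/
def maj (R : ℕ) : Finset (Finset (Fin R)) := Finset.univ.filter (fun A => R < 2 * A.card)

theorem maj_nonempty {R : ℕ} (hR : 0 < R) : (maj R).Nonempty := by
  refine ⟨Finset.univ, ?_⟩
  simp only [maj, Finset.mem_filter, Finset.mem_univ, true_and, Finset.card_univ, Fintype.card_fin]
  omega

theorem nonempty_of_mem_maj {R : ℕ} {A : Finset (Fin R)} (h : A ∈ maj R) : A.Nonempty := by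
  simp only [maj, Finset.mem_filter, Finset.mem_univ, true_and] at h
  rw [← Finset.card_pos]
  omega

/-- sup over a nonempty finset of reals, total version -/
noncomputable def supA {R : ℕ} (A : Finset (Fin R)) (z : Fin R → ℝ) : ℝ :=
  if h : A.Nonempty then A.sup' h z else 0

/-- median -/
noncomputable def med {R : ℕ} (hR : 0 < R) (z : Fin R → ℝ) : ℝ :=
  (maj R).inf' (maj_nonempty hR) (fun A => supA A z)

theorem continuous_supA {R : ℕ} (A : Finset (Fin R)) : Continuous (supA A) := by
  unfold supA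
  split_ifs with h
  · exact Continuous.finset_sup'_apply h (fun i _ => continuous_apply i)
  · exact continuous_const

theorem continuous_med {R : ℕ} (hR : 0 < R) : Continuous (med hR) := by
  unfold med
  exact Continuous.finset_inf'_apply _ (fun A _ => continuous_supA A)

theorem med_close {R : ℕ} (hR : 0 < R) (z : Fin R → ℝ) (x ε : ℝ)
    (h : 2 * (Finset.univ.filter (fun i => ε < |z i - x|)).card < R) :
    |med hR z - x| ≤ ε := by
  classical
  set G : Finset (Fin R) := Finset.univ.filter (fun i => |z i - x| ≤ ε) with hG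
  have hsum : G.card + (Finset.univ.filter (fun i => ε < |z i - x|)).card = R := by
    have h1 := Finset.card_filter_add_card_filter_not (s := (Finset.univ : Finset (Fin R)))
      (fun i => |z i - x| ≤ ε)
    simp only [not_le, Finset.card_univ, Fintype.card_fin] at h1
    exact h1
  have hGm : G ∈ maj R := by
    simp only [maj, Finset.mem_filter, Finset.mem_univ, true_and]
    omega
  rw [abs_le]
  constructor
  · -- lower bound
    have : x - ε ≤ med hR z := by
      unfold med
      rw [Finset.le_inf'_iff]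
      intro A hA
      have hAne := nonempty_of_mem_maj hA
      simp only [maj, Finset.mem_filter, Finset.mem_univ, true_and] at hA
      -- A meets G
      have hmeet : (A ∩ G).Nonempty := by
        by_contra hcon
        rw [Finset.not_nonempty_iff_eq_empty] at hcon
        have h2 : (A ∪ G).card = A.card + G.card :=
          Finset.card_union_of_disjoint (Finset.disjoint_iff_inter_eq_empty.2 hcon)
        have h3 : (A ∪ G).card ≤ R := by
          simpa using Finset.card_le_univ (A ∪ G)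
        omega
      obtain ⟨i, hi⟩ := hmeet
      rw [Finset.mem_inter] at hi
      have h4 : |z i - x| ≤ ε := by
        have := hi.2
        simpa [hG] using this
      have h5 : z i ≤ supA A z := by
        unfold supA
        rw [dif_pos hAne]
        exact Finset.le_sup' z hi.1
      have := (abs_le.1 h4).1
      linarith
    linarith
  · have : med hR z ≤ x + ε := by
      unfold med
      refine (Finset.inf'_le _ hGm).trans ?_
      have hGne := nonempty_of_mem_maj hGm
      unfold supA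
      rw [dif_pos hGne, Finset.sup'_le_iff]
      intro i hi
      have h4 : |z i - x| ≤ ε := by
        simpa [hG] using hi
      have := (abs_le.1 h4).2
      linarith
    linarith

/-- clipped value -/
noncomputable def clip (a : ℝ) : ℝ := max (-2) (min 2 a)

theorem continuous_clip : Continuous clip := by
  unfold clip
  fun_prop

theorem clip_close {a x ε : ℝ} (hx : |x| ≤ 2) (h : |a - x| ≤ ε) : |clip a - x| ≤ ε := by
  unfold clip
  rw [abs_le] at *
  obtain ⟨h1, h2⟩ := h
  obtain ⟨h3, h4⟩ := hx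
  constructor
  · have : x - ε ≤ max (-2) (min 2 a) := le_max_of_le_right (le_min (by linarith) (by linarith))
    linarith
  · have : max (-2) (min 2 a) ≤ x + ε :=
      max_le (by linarith) ((min_le_right _ _).trans (by linarith))
    linarith

theorem clip_bound {a x : ℝ} (hx : |x| ≤ 2) : |clip a - x| ≤ 4 := by
  unfold clip
  rw [abs_le] at *
  obtain ⟨h3, h4⟩ := hx
  constructor
  · have : (-2:ℝ) ≤ max (-2) (min 2 a) := le_max_left _ _
    linarith
  · have : max (-2) (min 2 a) ≤ 2 := max_le (by norm_num) (min_le_left _ _)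
    linarith

/-- Chernoff-type counting bound -/
theorem chernoff {Ω₁ : Type} [Fintype Ω₁] [DecidableEq Ω₁] (Bad : Finset Ω₁)
    (hBad : 64 * (Bad.card : ℝ) ≤ Fintype.card Ω₁) (R : ℕ) :
    (((Finset.univ : Finset (Fin R → Ω₁)).filter
      (fun ω => R ≤ 2 * (Finset.univ.filter (fun i => ω i ∈ Bad)).card)).card : ℝ) * 4 ^ R
      ≤ Fintype.card (Fin R → Ω₁) := by
  classical
  set N : ℝ := (Fintype.card Ω₁ : ℝ) with hN
  set Fl := ((Finset.univ : Finset (Fin R → Ω₁)).filter
      (fun ω => R ≤ 2 * (Finset.univ.filter (fun i => ω i ∈ Bad)).card)) with hFl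
  have h1 : ∑ ω : Fin R → Ω₁, ∏ i, (if ω i ∈ Bad then (64:ℝ) else 1)
      = (∑ a : Ω₁, (if a ∈ Bad then (64:ℝ) else 1)) ^ R := by
    rw [Fintype.sum_pow]
  have h2 : ∑ a : Ω₁, (if a ∈ Bad then (64:ℝ) else 1) ≤ 2 * N := by
    have h3 : ∀ a : Ω₁, (if a ∈ Bad then (64:ℝ) else 1) ≤ 1 + (if a ∈ Bad then (64:ℝ) else 0) := by
      intro a; split_ifs <;> norm_num
    refine (Finset.sum_le_sum (fun a _ => h3 a)).trans ?_
    rw [Finset.sum_add_distrib]
    simp only [Finset.sum_const, Finset.card_univ, nsmul_eq_mul, mul_one]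
    rw [← Finset.sum_filter]
    simp only [Finset.sum_const, nsmul_eq_mul, Finset.filter_univ_mem]
    linarith
  have h4 : ∀ ω : Fin R → Ω₁, ∏ i, (if ω i ∈ Bad then (64:ℝ) else 1)
      = 64 ^ (Finset.univ.filter (fun i => ω i ∈ Bad)).card := by
    intro ω
    rw [Finset.prod_ite]
    simp
  have h5 : (Fl.card : ℝ) * 8 ^ R ≤ ∑ ω : Fin R → Ω₁, ∏ i, (if ω i ∈ Bad then (64:ℝ) else 1) := by
    calc (Fl.card : ℝ) * 8 ^ R = ∑ ω ∈ Fl, (8:ℝ) ^ R := by rw [Finset.sum_const, nsmul_eq_mul]
      _ ≤ ∑ ω ∈ Fl, ∏ i, (if ω i ∈ Bad then (64:ℝ) else 1) := by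
          refine Finset.sum_le_sum (fun ω hω => ?_)
          rw [h4 ω]
          have h6 : R ≤ 2 * (Finset.univ.filter (fun i => ω i ∈ Bad)).card := by
            simpa [hFl] using hω
          calc (8:ℝ) ^ R ≤ 8 ^ (2 * (Finset.univ.filter (fun i => ω i ∈ Bad)).card) :=
                pow_le_pow_right₀ (by norm_num) h6
            _ = _ := by rw [pow_mul]; norm_num
      _ ≤ _ := by
          refine Finset.sum_le_sum_of_subset_of_nonneg (Finset.subset_univ _) (fun ω _ _ => ?_)
          rw [h4 ω]; positivity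
  have h7 : (∑ a : Ω₁, (if a ∈ Bad then (64:ℝ) else 1)) ^ R ≤ (2 * N) ^ R := by
    refine pow_le_pow_left₀ (Finset.sum_nonneg (fun a _ => ?_)) h2 R
    split_ifs <;> norm_num
  have h8 : (Fl.card : ℝ) * 8 ^ R ≤ 2 ^ R * N ^ R := by
    rw [← mul_pow]; exact h5.trans (h1.trans_le h7)
  have h9 : (8:ℝ) ^ R = 2 ^ R * 4 ^ R := by rw [← mul_pow]; norm_num
  rw [h9] at h8
  have h10 : (0:ℝ) < 2 ^ R := by positivity
  have h11 : (2:ℝ) ^ R * ((Fl.card : ℝ) * 4 ^ R) ≤ 2 ^ R * N ^ R := by
    calc (2:ℝ) ^ R * ((Fl.card : ℝ) * 4 ^ R) = (Fl.card : ℝ) * (2 ^ R * 4 ^ R) := by ring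
      _ ≤ _ := h8
  have h12 := le_of_mul_le_mul_left h11 h10
  refine h12.trans (le_of_eq ?_)
  rw [hN]
  simp

/-- The set of bad outcomes of one sketch is small. -/
theorem bad_card {m k : ℕ} (hk : 0 < k) (j : Fin m) (g h : Fin m → ℝ) {r : ℝ} (hr : 0 < r)
    (hg : ∑ l, |g l| ≤ 1) (hh : ∑ l, (h l) ^ 2 ≤ r ^ 2) :
    64 * (((Finset.univ : Finset ((Fin m → Fin k) × (Fin m → Bool))).filter (fun ω =>
      128 / (k:ℝ) + Real.sqrt (128 / k) * r < |noise j (fun l => g l + h l) ω|)).card : ℝ)
      ≤ Fintype.card ((Fin m → Fin k) × (Fin m → Bool)) := by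
  classical
  have hk0 : (0:ℝ) < k := by exact_mod_cast hk
  set N : ℝ := (Fintype.card ((Fin m → Fin k) × (Fin m → Bool)) : ℝ) with hN
  have hN0 : 0 ≤ N := Nat.cast_nonneg _
  set B1 := (Finset.univ : Finset ((Fin m → Fin k) × (Fin m → Bool))).filter (fun ω =>
      128 / (k:ℝ) < |noise j g ω|) with hB1
  set B2 := (Finset.univ : Finset ((Fin m → Fin k) × (Fin m → Bool))).filter (fun ω =>
      Real.sqrt (128 / k) * r < |noise j h ω|) with hB2
  have hsub : ((Finset.univ : Finset ((Fin m → Fin k) × (Fin m → Bool))).filter (fun ω =>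
      128 / (k:ℝ) + Real.sqrt (128 / k) * r < |noise j (fun l => g l + h l) ω|)) ⊆ B1 ∪ B2 := by
    intro ω hω
    rw [Finset.mem_filter] at hω
    rw [Finset.mem_union, hB1, hB2, Finset.mem_filter, Finset.mem_filter]
    by_contra hcon
    push Not at hcon
    have h1 := hcon.1 (Finset.mem_univ _)
    have h2 := hcon.2 (Finset.mem_univ _)
    have h3 : |noise j (fun l => g l + h l) ω| ≤ |noise j g ω| + |noise j h ω| := by
      rw [noise_add]; exact abs_add_le _ _
    linarith [hω.2]
  have hB1c : 128 * (B1.card : ℝ) ≤ N := by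
    have h1 := noise_l1 (k := k) j g
    have h2 : (B1.card : ℝ) * (128 / k) ≤ ∑ ω : (Fin m → Fin k) × (Fin m → Bool), |noise j g ω| := by
      calc (B1.card : ℝ) * (128 / k) = ∑ ω ∈ B1, (128 / (k:ℝ)) := by
            rw [Finset.sum_const, nsmul_eq_mul]
        _ ≤ ∑ ω ∈ B1, |noise j g ω| := by
            refine Finset.sum_le_sum (fun ω hω => ?_)
            rw [hB1, Finset.mem_filter] at hω
            exact hω.2.le
        _ ≤ _ := Finset.sum_le_sum_of_subset_of_nonneg (Finset.subset_univ _)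
            (fun ω _ _ => abs_nonneg _)
    have h3 : N * ∑ l, |g l| ≤ N := by nlinarith
    have h4 : (k:ℝ) * ((B1.card : ℝ) * (128 / k)) = 128 * (B1.card : ℝ) := by
      field_simp
    calc 128 * (B1.card : ℝ) = (k:ℝ) * ((B1.card : ℝ) * (128 / k)) := h4.symm
      _ ≤ (k:ℝ) * ∑ ω : (Fin m → Fin k) × (Fin m → Bool), |noise j g ω| := by gcongr
      _ ≤ N * ∑ l, |g l| := h1
      _ ≤ N := h3
  have hB2c : 128 * (B2.card : ℝ) ≤ N := by
    have h1 := noise_l2 (k := k) j h
    have h2 : (B2.card : ℝ) * ((128 / k) * r ^ 2)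
        ≤ ∑ ω : (Fin m → Fin k) × (Fin m → Bool), (noise j h ω) ^ 2 := by
      calc (B2.card : ℝ) * ((128 / k) * r ^ 2) = ∑ ω ∈ B2, ((128 / (k:ℝ)) * r ^ 2) := by
            rw [Finset.sum_const, nsmul_eq_mul]
        _ ≤ ∑ ω ∈ B2, (noise j h ω) ^ 2 := by
            refine Finset.sum_le_sum (fun ω hω => ?_)
            rw [hB2, Finset.mem_filter] at hω
            have h3 : (Real.sqrt (128 / k) * r) ^ 2 ≤ |noise j h ω| ^ 2 :=
              pow_le_pow_left₀ (by positivity) hω.2.le 2
            rw [mul_pow, Real.sq_sqrt (by positivity), sq_abs] at h3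
            exact h3
        _ ≤ _ := Finset.sum_le_sum_of_subset_of_nonneg (Finset.subset_univ _)
            (fun ω _ _ => sq_nonneg _)
    have h3 : N * ∑ l, (h l) ^ 2 ≤ N * r ^ 2 := by gcongr
    have h4 : (k:ℝ) * ((B2.card : ℝ) * ((128 / k) * r ^ 2)) = 128 * (B2.card : ℝ) * r ^ 2 := by
      field_simp
    have h5 : 128 * (B2.card : ℝ) * r ^ 2 ≤ N * r ^ 2 := by
      calc 128 * (B2.card : ℝ) * r ^ 2 = (k:ℝ) * ((B2.card : ℝ) * ((128 / k) * r ^ 2)) := h4.symm
        _ ≤ (k:ℝ) * ∑ ω : (Fin m → Fin k) × (Fin m → Bool), (noise j h ω) ^ 2 := by gcongr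
        _ ≤ N * ∑ l, (h l) ^ 2 := h1
        _ ≤ N * r ^ 2 := h3
    exact le_of_mul_le_mul_right h5 (by positivity)
  have h1 : (((Finset.univ : Finset ((Fin m → Fin k) × (Fin m → Bool))).filter (fun ω =>
      128 / (k:ℝ) + Real.sqrt (128 / k) * r < |noise j (fun l => g l + h l) ω|)).card : ℝ)
      ≤ B1.card + B2.card := by
    have := (Finset.card_le_card hsub).trans (Finset.card_union_le B1 B2)
    exact_mod_cast this
  linarith

end Pool.Agent.Helper228.Gain
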