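import Pool.Agent.Helper228.Gain.C

open scoped ENNReal InnerProductSpace
open MeasureTheory Set

namespace Pool.Agent.Helper228.Gain

/-- the space: bounded functions on `ℕ × ℕ` -/
abbrev BX : Type := BoundedContinuousFunction (ℕ × ℕ) ℝ

/-- indicator of a point -/
noncomputable def dl (p : ℕ × ℕ) : BX :=
  BoundedContinuousFunction.ofNormedAddCommGroupDiscrete (fun q => if q = p then (1:ℝ) else 0) 1
    (fun q => by split_ifs <;> simp)

theorem dl_apply (p q : ℕ × ℕ) : dl p q = if q = p then (1:ℝ) else 0 := rfl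

/-- finitely supported function -/
noncomputable def emb (s : Finset (ℕ × ℕ)) (y : ℕ × ℕ → ℝ) : BX := ∑ p ∈ s, y p • dl p

theorem emb_apply (s : Finset (ℕ × ℕ)) (y : ℕ × ℕ → ℝ) (q : ℕ × ℕ) :
    emb s y q = if q ∈ s then y q else 0 := by
  unfold emb
  rw [BoundedContinuousFunction.sum_apply]
  simp only [BoundedContinuousFunction.coe_smul, dl_apply, smul_eq_mul, mul_ite, mul_one, mul_zero]
  rw [Finset.sum_ite_eq]

theorem continuous_emb {Z : Type} [TopologicalSpace Z] (s : Finset (ℕ × ℕ)) (G : Z → ℕ × ℕ → ℝ)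
    (hG : ∀ p, Continuous (fun z => G z p)) : Continuous (fun z => emb s (G z)) := by
  unfold emb
  exact continuous_finsetSum _ (fun p _ => (hG p).smul continuous_const)

/-- evaluation functional -/
noncomputable def ev (p : ℕ × ℕ) : BX →L[ℝ] ℝ := BoundedContinuousFunction.evalCLM ℝ p

theorem ev_apply (p : ℕ × ℕ) (f : BX) : ev p f = f p := rfl

/-- the input set -/
def FS (σ r : ℕ → ℝ) (m : ℕ → ℕ) : Set BX :=
  {f | ∀ i, ∃ g h : ℕ → ℝ, (∀ l, m i ≤ l → g l = 0 ∧ h l = 0) ∧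
    ∑ l ∈ Finset.range (m i), |g l| ≤ 1 ∧ ∑ l ∈ Finset.range (m i), (h l) ^ 2 ≤ (r i) ^ 2 ∧
    ∀ l, f (i, l) = σ i * (g l + h l)}

theorem FS_convex (σ r : ℕ → ℝ) (m : ℕ → ℕ) : Convex ℝ (FS σ r m) := by
  intro f1 hf1 f2 hf2 a b ha hb hab i
  obtain ⟨g1, h1, z1, s1, t1, e1⟩ := hf1 i
  obtain ⟨g2, h2, z2, s2, t2, e2⟩ := hf2 i
  refine ⟨fun l => a * g1 l + b * g2 l, fun l => a * h1 l + b * h2 l, fun l hl => ?_, ?_, ?_, ?_⟩
  · simp [(z1 l hl).1, (z1 l hl).2, (z2 l hl).1, (z2 l hl).2]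
  · calc ∑ l ∈ Finset.range (m i), |a * g1 l + b * g2 l|
        ≤ ∑ l ∈ Finset.range (m i), (a * |g1 l| + b * |g2 l|) := by
          refine Finset.sum_le_sum (fun l _ => (abs_add_le _ _).trans ?_)
          rw [abs_mul, abs_mul, abs_of_nonneg ha, abs_of_nonneg hb]
      _ = a * ∑ l ∈ Finset.range (m i), |g1 l| + b * ∑ l ∈ Finset.range (m i), |g2 l| := by
          rw [Finset.sum_add_distrib, Finset.mul_sum, Finset.mul_sum]
      _ ≤ a * 1 + b * 1 := by gcongr
      _ = 1 := by rw [mul_one, mul_one, hab]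
  · calc ∑ l ∈ Finset.range (m i), (a * h1 l + b * h2 l) ^ 2
        ≤ ∑ l ∈ Finset.range (m i), (a * (h1 l) ^ 2 + b * (h2 l) ^ 2) := by
          refine Finset.sum_le_sum (fun l _ => ?_)
          have hb' : b = 1 - a := by linarith
          have ha1 : a ≤ 1 := by linarith
          rw [hb']
          nlinarith [mul_nonneg (mul_nonneg ha (sub_nonneg.2 ha1)) (sq_nonneg (h1 l - h2 l))]
      _ = a * ∑ l ∈ Finset.range (m i), (h1 l) ^ 2 + b * ∑ l ∈ Finset.range (m i), (h2 l) ^ 2 := by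
          rw [Finset.sum_add_distrib, Finset.mul_sum, Finset.mul_sum]
      _ ≤ a * (r i) ^ 2 + b * (r i) ^ 2 := by gcongr
      _ = (r i) ^ 2 := by rw [← add_mul, hab, one_mul]
  · intro l
    show a * f1 (i, l) + b * f2 (i, l) = _
    rw [e1 l, e2 l]
    ring

theorem FS_symm (σ r : ℕ → ℝ) (m : ℕ → ℕ) : ∀ f ∈ FS σ r m, -f ∈ FS σ r m := by
  intro f hf i
  obtain ⟨g1, h1, z1, s1, t1, e1⟩ := hf i
  refine ⟨fun l => - g1 l, fun l => - h1 l, fun l hl => ?_, ?_, ?_, ?_⟩
  · simp [(z1 l hl).1, (z1 l hl).2]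
  · simpa using s1
  · simpa using t1
  · intro l
    show - f (i, l) = _
    rw [e1 l]
    ring

theorem FS_x_bound {m : ℕ} {g h : ℕ → ℝ} {r : ℝ} (hr0 : 0 ≤ r) (hr1 : r ≤ 1)
    (z : ∀ l, m ≤ l → g l = 0 ∧ h l = 0)
    (s : ∑ l ∈ Finset.range m, |g l| ≤ 1) (t : ∑ l ∈ Finset.range m, (h l) ^ 2 ≤ r ^ 2) (l : ℕ) :
    |g l + h l| ≤ 2 := by
  by_cases hl : m ≤ l
  · rw [(z l hl).1, (z l hl).2]; simp
  · push Not at hl
    have hl' : l ∈ Finset.range m := Finset.mem_range.2 hl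
    have h1 : |g l| ≤ 1 :=
      (Finset.single_le_sum (f := fun l => |g l|) (fun _ _ => abs_nonneg _) hl').trans s
    have h2 : (h l) ^ 2 ≤ 1 := by
      refine ((Finset.single_le_sum (f := fun l => (h l) ^ 2) (fun _ _ => sq_nonneg _) hl').trans
        t).trans ?_
      nlinarith
    have h3 : |h l| ≤ 1 := by
      rw [← sq_abs] at h2
      nlinarith [abs_nonneg (h l)]
    exact (abs_add_le _ _).trans (by linarith)

theorem FS_bound {σ r : ℕ → ℝ} {m : ℕ → ℕ} (hσ : ∀ i, 0 ≤ σ i) (hr0 : ∀ i, 0 < r i)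
    (hr1 : ∀ i, r i ≤ 1) {f : BX} (hf : f ∈ FS σ r m) (i l : ℕ) : |f (i, l)| ≤ 2 * σ i := by
  obtain ⟨g, h, z, s, t, e⟩ := hf i
  rw [e l, abs_mul, abs_of_nonneg (hσ i)]
  have := FS_x_bound (hr0 i).le (hr1 i) z s t l
  have h2 := hσ i
  nlinarith

theorem sketch_eq {m k : ℕ} (j : Fin m) (v : Fin m → ℝ) (ω : (Fin m → Fin k) × (Fin m → Bool)) :
    sg (ω.2 j) * ∑ l, (if ω.1 l = ω.1 j then sg (ω.2 l) * v l else 0) = v j + noise j v ω := by
  unfold noise
  rw [Finset.mul_sum]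
  have h1 : v j = ∑ l, (if l = j then v j else 0) := by
    rw [Finset.sum_ite_eq']; simp
  conv_rhs => rw [h1]
  rw [← Finset.sum_add_distrib]
  refine Finset.sum_congr rfl (fun l _ => ?_)
  by_cases hl : l = j
  · subst hl
    simp only [if_true, ne_eq, not_true_eq_false, false_and, if_false, add_zero]
    rw [← mul_assoc, sg_sq, one_mul]
  · by_cases h2 : ω.1 l = ω.1 j
    · rw [if_pos h2, if_neg hl, if_pos ⟨hl, h2⟩]
      ring
    · simp [hl, h2]

/-- the points of the blocks before `j` -/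
def pre (m : ℕ → ℕ) (j : ℕ) : Finset (ℕ × ℕ) :=
  (Finset.range j).biUnion (fun i => (Finset.range (m i)).image (fun l => (i, l)))

theorem mem_pre {m : ℕ → ℕ} {j : ℕ} {q : ℕ × ℕ} : q ∈ pre m j ↔ q.1 < j ∧ q.2 < m q.1 := by
  unfold pre
  simp only [Finset.mem_biUnion, Finset.mem_range, Finset.mem_image]
  constructor
  · rintro ⟨i, hi, l, hl, rfl⟩
    exact ⟨hi, hl⟩
  · rintro ⟨h1, h2⟩
    exact ⟨q.1, h1, q.2, h2, rfl⟩

theorem card_pre (m : ℕ → ℕ) (j : ℕ) : (pre m j).card ≤ ∑ i ∈ Finset.range j, m i := by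
  unfold pre
  refine Finset.card_biUnion_le.trans (Finset.sum_le_sum (fun i _ => ?_))
  refine Finset.card_image_le.trans ?_
  simp

theorem ran_bound {σ r : ℕ → ℝ} {m : ℕ → ℕ} (hσ : ∀ i, 0 < σ i) (hr0 : ∀ i, 0 < r i)
    (hr1 : ∀ i, r i ≤ 1) {j R k n : ℕ} (hR : 0 < R) (hk : 0 < k)
    (hn : ∑ i ∈ Finset.range j, m i + R * k ≤ n) {τ : ℝ} (hτ0 : 0 ≤ τ)
    (hτ : ∀ i, j < i → 2 * σ i ≤ τ) :
    ranErr (ContinuousLinearMap.id ℝ BX) (FS σ r m) n ≤ ENNReal.ofReal
      (σ j * (128 / (k:ℝ) + Real.sqrt (128 / k) * r j + 4 * (m j / 4 ^ R)) + τ) := by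
  classical
  have hne : Nonempty (Fin k) := ⟨⟨0, hk⟩⟩
  set M := m j with hM
  have hk0 : (0:ℝ) < k := by exact_mod_cast hk
  have hσj := hσ j
  have hrj := hr0 j
  set ε : ℝ := 128 / (k:ℝ) + Real.sqrt (128 / k) * r j with hε
  have hε0 : 0 ≤ ε := by positivity
  -- sample space
  let Ω : Type := Fin R → (Fin M → Fin k) × (Fin M → Bool)
  let κ : Type := (pre m j) ⊕ (Fin R × Fin k)
  have hκ : Fintype.card κ ≤ n := by
    simp only [κ, Fintype.card_sum, Fintype.card_coe, Fintype.card_prod, Fintype.card_fin]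
    have := card_pre m j
    omega
  let L : Ω → κ → BX →L[ℝ] ℝ := fun ω => Sum.elim (fun p => ev p.1)
    (fun rb => ∑ l : Fin M, if (ω rb.1).1 l = rb.2 then (sg ((ω rb.1).2 l)) • ev (j, (l:ℕ)) else 0)
  let est : Ω → (κ → ℝ) → Fin M → ℝ := fun ω y l =>
    clip (med hR (fun i => sg ((ω i).2 l) * y (Sum.inr (i, (ω i).1 l)) / σ j))
  let G : Ω → (κ → ℝ) → ℕ × ℕ → ℝ := fun ω y q =>
    if h : q ∈ pre m j then y (Sum.inl ⟨q, h⟩) else
      if h : q.1 = j ∧ q.2 < M then σ j * est ω y ⟨q.2, h.2⟩ else 0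
  have hGc : ∀ ω q, Continuous (fun y => G ω y q) := by
    intro ω q
    simp only [G]
    split_ifs with h1 h2
    · exact continuous_apply _
    · refine continuous_const.mul (continuous_clip.comp ((continuous_med hR).comp ?_))
      refine continuous_pi (fun i => ?_)
      exact (continuous_const.mul (continuous_apply _)).div_const _
    · exact continuous_const
  let φ : Ω → (κ → ℝ) → BX := fun ω y => emb (pre m (j+1)) (G ω y)
  have hφ : ∀ ω, Continuous (φ ω) := fun ω => continuous_emb _ _ (hGc ω)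
  have hΩne : Nonempty Ω := inferInstance
  refine ran_upper (Ω := Ω) (κ := κ) (by positivity) hκ L φ hφ (fun f hf => ?_)
  obtain ⟨g, h, z, s, t, e⟩ := hf j
  -- restrict to Fin M
  let g' : Fin M → ℝ := fun l => g l
  let h' : Fin M → ℝ := fun l => h l
  have hg' : ∑ l, |g' l| ≤ 1 := by
    rw [← Finset.sum_range (fun l => |g l|)]; exact s
  have hh' : ∑ l, (h' l) ^ 2 ≤ (r j) ^ 2 := by
    rw [← Finset.sum_range (fun l => (h l) ^ 2)]; exact t
  let Bad : Fin M → Finset ((Fin M → Fin k) × (Fin M → Bool)) := fun l =>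
    (Finset.univ.filter (fun ω => ε < |noise l (fun l => g' l + h' l) ω|))
  have hBad : ∀ l, 64 * ((Bad l).card : ℝ) ≤ Fintype.card ((Fin M → Fin k) × (Fin M → Bool)) :=
    fun l => bad_card hk l g' h' hrj hg' hh'
  let Fl : Fin M → Finset Ω := fun l => Finset.univ.filter
    (fun ω => R ≤ 2 * (Finset.univ.filter (fun i => ω i ∈ Bad l)).card)
  have hFl : ∀ l, ((Fl l).card : ℝ) * 4 ^ R ≤ Fintype.card Ω := fun l => chernoff (Bad l) (hBad l) R
  let Fail : Finset Ω := Finset.univ.biUnion Fl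
  have hFail : (Fail.card : ℝ) ≤ Fintype.card Ω * (M / 4 ^ R) := by
    have h1 : (Fail.card : ℝ) ≤ ∑ l : Fin M, ((Fl l).card : ℝ) := by
      exact_mod_cast Finset.card_biUnion_le
    have h2 : ∀ l, ((Fl l).card : ℝ) ≤ Fintype.card Ω / 4 ^ R := fun l => by
      rw [le_div_iff₀ (by positivity)]; exact hFl l
    refine h1.trans ((Finset.sum_le_sum (fun l _ => h2 l)).trans (le_of_eq ?_))
    rw [Finset.sum_const, Finset.card_univ, Fintype.card_fin, nsmul_eq_mul]
    ring
  -- the observed data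
  have hL2 : ∀ (ω : Ω) (i : Fin R) (l : Fin M),
      sg ((ω i).2 l) * L ω (Sum.inr (i, (ω i).1 l)) f / σ j
        = (g' l + h' l) + noise l (fun l => g' l + h' l) (ω i) := by
    intro ω i l
    refine Eq.trans ?_ (sketch_eq l (fun l => g' l + h' l) (ω i))
    simp only [L, Sum.elim_inr, _root_.sum_apply]
    rw [mul_div_assoc]
    congr 1
    rw [Finset.sum_div]
    refine Finset.sum_congr rfl (fun l' _ => ?_)
    split_ifs with h1
    · rw [_root_.smul_apply, ev_apply, e, smul_eq_mul]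
      simp only [g', h']
      field_simp
    · simp
  have hx : ∀ l : Fin M, |g' l + h' l| ≤ 2 := fun l =>
    FS_x_bound hrj.le (hr1 j) z s t l
  -- pointwise error
  have herr : ∀ ω : Ω, ‖f - φ ω (fun i => L ω i f)‖
      ≤ σ j * (ε + (if ω ∈ Fail then 4 else 0)) + τ := by
    intro ω
    have hb0 : (0:ℝ) ≤ (if ω ∈ Fail then (4:ℝ) else 0) := by split_ifs <;> norm_num
    rw [BoundedContinuousFunction.norm_le (by positivity)]
    rintro ⟨i, l⟩
    have hφv : φ ω (fun i => L ω i f) (i, l)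
        = if (i, l) ∈ pre m (j+1) then G ω (fun i => L ω i f) (i, l) else 0 := emb_apply _ _ _
    rw [Real.norm_eq_abs]
    show |f (i, l) - φ ω (fun i => L ω i f) (i, l)| ≤ _
    rw [hφv]
    rcases lt_trichotomy i j with hij | hij | hij
    · -- observed blocks
      by_cases hl : l < m i
      · have h1 : (i, l) ∈ pre m j := mem_pre.2 ⟨hij, hl⟩
        have h2 : (i, l) ∈ pre m (j+1) := mem_pre.2 ⟨by simp; omega, hl⟩
        rw [if_pos h2]
        simp only [G, dif_pos h1, L, Sum.elim_inl, ev_apply]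
        rw [sub_self, abs_zero]
        positivity
      · have h2 : (i, l) ∉ pre m (j+1) := fun h => hl (mem_pre.1 h).2
        rw [if_neg h2]
        obtain ⟨g1, h1, z1, s1, t1, e1⟩ := hf i
        rw [e1, (z1 l (not_lt.1 hl)).1, (z1 l (not_lt.1 hl)).2]
        simp only [add_zero, mul_zero, sub_zero, abs_zero]
        positivity
    · subst hij
      by_cases hl : l < m i
      · have h1 : (i, l) ∉ pre m i := fun h => absurd (mem_pre.1 h).1 (lt_irrefl _)
        have h2 : (i, l) ∈ pre m (i+1) := mem_pre.2 ⟨by simp, hl⟩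
        have h3 : (i, l).1 = i ∧ (i, l).2 < M := ⟨rfl, hl⟩
        rw [if_pos h2]
        have hGv : G ω (fun i => L ω i f) (i, l) = σ i * est ω (fun i => L ω i f) ⟨l, hl⟩ := by
          exact (dif_neg h1).trans (dif_pos h3)
        rw [hGv]
        have h4 : f (i, l) = σ i * (g' ⟨l, hl⟩ + h' ⟨l, hl⟩) := e l
        rw [h4, ← mul_sub, abs_mul, abs_of_pos hσj]
        have h5 : |(g' ⟨l, hl⟩ + h' ⟨l, hl⟩) - est ω (fun i => L ω i f) ⟨l, hl⟩|
            ≤ ε + (if ω ∈ Fail then 4 else 0) := by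
          rw [abs_sub_comm]
          simp only [est]
          simp only [hL2]
          by_cases hF : ω ∈ Fail
          · rw [if_pos hF]
            have := clip_bound (a := med hR (fun i => g' ⟨l, hl⟩ + h' ⟨l, hl⟩
              + noise ⟨l, hl⟩ (fun l => g' l + h' l) (ω i))) (hx ⟨l, hl⟩)
            linarith
          · rw [if_neg hF, add_zero]
            refine clip_close (hx ⟨l, hl⟩) (med_close hR _ _ _ ?_)
            have h6 : ω ∉ Fl ⟨l, hl⟩ := fun h => hF (Finset.mem_biUnion.2 ⟨_, Finset.mem_univ _, h⟩)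
            simp only [Fl, Finset.mem_filter, Finset.mem_univ, true_and, not_le] at h6
            refine lt_of_le_of_lt (le_of_eq ?_) h6
            congr 2
            ext i
            simp only [Bad, Finset.mem_filter, Finset.mem_univ, true_and, add_sub_cancel_left]
        have h6 := mul_le_mul_of_nonneg_left h5 hσj.le
        linarith
      · have h2 : (i, l) ∉ pre m (i+1) := fun h => hl (mem_pre.1 h).2
        rw [if_neg h2, e, (z l (not_lt.1 hl)).1, (z l (not_lt.1 hl)).2]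
        simp only [add_zero, mul_zero, sub_zero, abs_zero]
        positivity
    · have h2 : (i, l) ∉ pre m (j+1) := fun h => by
        have := (mem_pre.1 h).1
        simp only at this
        omega
      rw [if_neg h2, sub_zero]
      refine (FS_bound (fun i => (hσ i).le) hr0 hr1 hf i l).trans ((hτ i hij).trans ?_)
      have : 0 ≤ σ j * (ε + (if ω ∈ Fail then 4 else 0)) := by positivity
      linarith
  show ∑ ω : Ω, ‖f - φ ω (fun i => L ω i f)‖ ≤ _
  calc ∑ ω : Ω, ‖f - φ ω (fun i => L ω i f)‖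
      ≤ ∑ ω : Ω, (σ j * (ε + (if ω ∈ Fail then 4 else 0)) + τ) := Finset.sum_le_sum (fun ω _ => herr ω)
    _ = Fintype.card Ω * (σ j * ε + τ) + 4 * σ j * Fail.card := by
        have h1 : ∀ ω : Ω, σ j * (ε + (if ω ∈ Fail then (4:ℝ) else 0)) + τ
            = (σ j * ε + τ) + (if ω ∈ Fail then 4 * σ j else 0) := by
          intro ω; split_ifs <;> ring
        simp only [h1]
        rw [Finset.sum_add_distrib, Finset.sum_const, Finset.card_univ, nsmul_eq_mul,
          ← Finset.sum_filter, Finset.sum_const, nsmul_eq_mul, Finset.filter_univ_mem]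
        ring
    _ ≤ Fintype.card Ω * (σ j * ε + τ) + 4 * σ j * (Fintype.card Ω * (M / 4 ^ R)) := by
        gcongr
    _ = Fintype.card Ω * (σ j * (ε + 4 * (M / 4 ^ R)) + τ) := by ring

end Pool.Agent.Helper228.Gain
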