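import Mathlib

open scoped ENNReal
open MeasureTheory Set

namespace Pool.Agent.Helper228.Gain

/-- `e_n^{det-non}(S, F)`: infimum over `n` continuous linear functionals `L` and over all maps
`φ : ℝ^n → Y` of the worst case error `sup_{f ∈ F} ‖S f - φ (L f)‖`. -/
noncomputable def detErr {X Y : Type} [NormedAddCommGroup X] [NormedSpace ℝ X]
    [NormedAddCommGroup Y] [NormedSpace ℝ Y] (S : X →L[ℝ] Y) (F : Set X) (n : ℕ) : ℝ≥0∞ :=
  ⨅ (L : Fin n → X →L[ℝ] ℝ) (φ : (Fin n → ℝ) → Y), ⨆ f ∈ F, ‖S f - φ (fun i => L i f)‖ₑ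

/-- A randomized non-adaptive algorithm with `n` continuous linear functionals: a probability
space `Ω`, functionals `L ω` and maps `φ ω` depending on `ω ∈ Ω`, such that
`(ω, f) ↦ φ ω (L ω f)` is measurable from the product of the sigma algebra of `Ω` and the Borel
sigma algebra of `F` to the Borel sigma algebra of `Y`. -/
structure RandAlg (X Y : Type) [NormedAddCommGroup X] [NormedSpace ℝ X]
    [NormedAddCommGroup Y] [NormedSpace ℝ Y] (F : Set X) (n : ℕ) where
  /-- the sample space -/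
  Ω : Type
  /-- its sigma algebra -/
  mΩ : MeasurableSpace Ω
  /-- the probability measure -/
  P : Measure Ω
  prob : IsProbabilityMeasure P
  /-- the random functionals -/
  L : Ω → Fin n → X →L[ℝ] ℝ
  /-- the random maps -/
  φ : Ω → (Fin n → ℝ) → Y
  meas : @Measurable (Ω × F) Y (@Prod.instMeasurableSpace Ω F mΩ (borel F)) (borel Y)
    (fun p => φ p.1 (fun i => L p.1 i (p.2 : X)))

/-- `e_n^{ran-non}(S, F)`: infimum over all randomized non-adaptive algorithms with `n`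
functionals of the error `sup_{f ∈ F} E ‖S f - A^ω f‖`. -/
noncomputable def ranErr {X Y : Type} [NormedAddCommGroup X] [NormedSpace ℝ X]
    [NormedAddCommGroup Y] [NormedSpace ℝ Y] (S : X →L[ℝ] Y) (F : Set X) (n : ℕ) : ℝ≥0∞ :=
  ⨅ A : RandAlg X Y F n, ⨆ f ∈ F,
    @lintegral A.Ω A.mΩ A.P (fun ω => ‖S f - A.φ ω (fun i => A.L ω i f)‖ₑ)

/-- `rate(z) = sup {α > 0 : ∃ C ≥ 0, ∀ n ≥ 1, z_n ≤ C n^{-α}}`, with values in `[0, ∞]`. -/
noncomputable def rate (z : ℕ → ℝ≥0∞) : ℝ≥0∞ :=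
  sSup {t | ∃ α : ℝ, 0 < α ∧ t = ENNReal.ofReal α ∧
    ∃ C : ℝ, 0 ≤ C ∧ ∀ n : ℕ, 1 ≤ n → z n ≤ ENNReal.ofReal (C * (n : ℝ) ^ (-α))}

/-- The maximal gain `G` of randomization among non-adaptive algorithms: the supremum of
`rate(e_n^{ran-non}(S, F)) - rate(e_n^{det-non}(S, F))` over all real Banach spaces `X, Y`, all
bounded linear `S : X → Y` and all convex symmetric `F ⊆ X` (with finite deterministic rate, so
that the difference makes sense). -/
noncomputable def gain : ℝ≥0∞ :=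
  sSup {t | ∃ (X Y : Type) (_ : NormedAddCommGroup X) (_ : NormedSpace ℝ X) (_ : CompleteSpace X)
    (_ : NormedAddCommGroup Y) (_ : NormedSpace ℝ Y) (_ : CompleteSpace Y)
    (S : X →L[ℝ] Y) (F : Set X), Convex ℝ F ∧ (∀ f ∈ F, -f ∈ F) ∧
      rate (detErr S F) < ⊤ ∧ t = rate (ranErr S F) - rate (detErr S F)}

end Pool.Agent.Helper228.Gain
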