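import Pool.Agent.Helper228.Gain.D

open scoped ENNReal InnerProductSpace
open MeasureTheory Set

namespace Pool.Agent.Helper228.Gain

/-- embedding of the block `j` -/
noncomputable def blk (M j : ℕ) : EuclideanSpace ℝ (Fin M) →ₗ[ℝ] BX where
  toFun x := ∑ l : Fin M, x l • dl (j, (l:ℕ))
  map_add' x y := by
    rw [← Finset.sum_add_distrib]
    refine Finset.sum_congr rfl (fun l _ => ?_)
    rw [← add_smul]; rfl
  map_smul' c x := by
    rw [RingHom.id_apply, Finset.smul_sum]
    refine Finset.sum_congr rfl (fun l _ => ?_)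
    rw [smul_smul]; rfl

theorem blk_apply {M j : ℕ} (x : EuclideanSpace ℝ (Fin M)) (i l : ℕ) :
    blk M j x (i, l) = if h : i = j ∧ l < M then x ⟨l, h.2⟩ else 0 := by
  show (∑ l : Fin M, x l • dl (j, (l:ℕ)) : BX) (i, l) = _
  rw [BoundedContinuousFunction.sum_apply]
  simp only [BoundedContinuousFunction.coe_smul, dl_apply, smul_eq_mul, mul_ite, mul_one, mul_zero,
    Prod.mk.injEq]
  split_ifs with h
  · rw [Finset.sum_eq_single ⟨l, h.2⟩]
    · simp [h.1]
    · intro b _ hb
      rw [if_neg]
      rintro ⟨_, h2⟩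
      exact hb (Fin.ext h2.symm)
    · intro h2; exact absurd (Finset.mem_univ _) h2
  · refine Finset.sum_eq_zero (fun b _ => ?_)
    rw [if_neg]
    rintro ⟨h1, h2⟩
    exact h ⟨h1, h2 ▸ b.2⟩

theorem det_bound {σ r : ℕ → ℝ} {m : ℕ → ℕ} (hσ : ∀ i, 0 < σ i) {j n : ℕ} (hm : 0 < m j)
    (hr : (n:ℝ) / m j ≤ (r j) ^ 2) (h4 : (n:ℝ) / m j ≤ 1 / 4) :
    ENNReal.ofReal (σ j / 2) ≤ detErr (ContinuousLinearMap.id ℝ BX) (FS σ r m) n := by
  classical
  refine det_lower (fun L => ?_)
  obtain ⟨l, h, hh, hL⟩ := exists_small_residual hm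
    (fun i => LinearMap.toContinuousLinearMap ((L i).toLinearMap.comp (blk (m j) j)))
  have hL' : ∀ i, L i (blk (m j) j (EuclideanSpace.single l 1 - h)) = 0 := hL
  set f : BX := σ j • blk (m j) j (EuclideanSpace.single l 1 - h) with hf
  have hfv : ∀ i l', f (i, l') = σ j * (if h' : i = j ∧ l' < m j then
      (EuclideanSpace.single l (1:ℝ) - h) ⟨l', h'.2⟩ else 0) := by
    intro i l'
    rw [hf, ← blk_apply]; rfl
  have hF : f ∈ FS σ r m := by
    intro i
    by_cases hij : i = j
    · subst hij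
      refine ⟨fun l' => if l' = l then 1 else 0,
        fun l' => if h' : l' < m i then - h ⟨l', h'⟩ else 0, fun l' hl' => ?_, ?_, ?_, ?_⟩
      · constructor
        · have : l' ≠ l := fun h => by
            have := l.2; omega
          simp [this]
        · simp [not_lt.2 hl']
      · have : ∀ l' ∈ Finset.range (m i), |(if l' = (l:ℕ) then (1:ℝ) else 0)|
            = if l' = (l:ℕ) then (1:ℝ) else 0 := by
          intro l' _; split_ifs <;> simp
        rw [Finset.sum_congr rfl this, Finset.sum_ite_eq']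
        split_ifs <;> norm_num
      · rw [Finset.sum_range]
        refine le_trans (le_of_eq ?_) (hh.trans hr)
        rw [EuclideanSpace.norm_sq_eq]
        refine Finset.sum_congr rfl (fun l' _ => ?_)
        simp
      · intro l'
        rw [hfv]
        beta_reduce
        congr 1
        by_cases hl' : l' < m i
        · rw [dif_pos ⟨rfl, hl'⟩, dif_pos hl']
          simp only [PiLp.sub_apply, PiLp.single_apply]
          by_cases h5 : l' = l
          · have : (⟨l', hl'⟩ : Fin (m i)) = l := Fin.ext h5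
            simp [h5]; ring
          · have : (⟨l', hl'⟩ : Fin (m i)) ≠ l := fun h => h5 (congrArg Fin.val h)
            simp [this, h5]
        · rw [dif_neg (fun h => hl' h.2), dif_neg hl']
          have : l' ≠ l := fun h => by
            have := l.2; omega
          simp [this]
    · refine ⟨fun _ => 0, fun _ => 0, fun _ _ => ⟨rfl, rfl⟩, by simp, by simp; positivity, ?_⟩
      intro l'
      rw [hfv, dif_neg (fun h => hij h.1)]
      simp
  refine ⟨f, hF, FS_symm _ _ _ f hF, fun i => ?_, ?_⟩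
  · rw [hf, map_smul, hL' i, smul_zero]
  · have h1 : ‖f (j, (l:ℕ))‖ ≤ ‖f‖ := BoundedContinuousFunction.norm_coe_le_norm f _
    refine le_trans ?_ h1
    rw [hfv, dif_pos ⟨rfl, l.2⟩]
    have h2 : (EuclideanSpace.single l (1:ℝ) - h) ⟨(l:ℕ), l.2⟩ = 1 - h l := by
      simp
    rw [h2, Real.norm_eq_abs, abs_mul, abs_of_pos (hσ j)]
    have h3 : (h l) ^ 2 ≤ 1 / 4 := by
      refine le_trans ?_ (hh.trans h4)
      rw [EuclideanSpace.norm_sq_eq]
      refine le_trans (le_of_eq ?_) (Finset.single_le_sum (f := fun i => ‖h i‖ ^ 2)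
        (fun _ _ => sq_nonneg _) (Finset.mem_univ l))
      simp
    have h5 : h l ≤ 1 / 2 := by nlinarith
    have h6 : 1 / 2 ≤ |1 - h l| := by
      rw [le_abs]; left; linarith
    have := hσ j
    nlinarith

end Pool.Agent.Helper228.Gain
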