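import Pool.Agent.Helper228.Gain.E

open scoped ENNReal InnerProductSpace
open MeasureTheory Set

namespace Pool.Agent.Helper228.Gain

/-- exponents -/
def uu (T j : ℕ) : ℕ := T ^ (2 * j)
/-- block sizes -/
def mm (T j : ℕ) : ℕ := 2 ^ (T ^ 2 * uu T j)
/-- critical numbers of functionals -/
def nn (T j : ℕ) : ℕ := 2 ^ (T * uu T j)
/-- block heights -/
noncomputable def ss (T j : ℕ) : ℝ := (1 / 2) ^ (uu T j)
/-- Euclidean radii -/
noncomputable def rr (T j : ℕ) : ℝ := Real.sqrt ((nn T j : ℝ) / mm T j)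

variable {T : ℕ}

theorem uu_pos (hT : 3 ≤ T) (j : ℕ) : 1 ≤ uu T j := Nat.one_le_pow _ _ (by omega)

theorem uu_succ (T j : ℕ) : uu T (j+1) = T ^ 2 * uu T j := by
  unfold uu; rw [← pow_add]; congr 1; ring

theorem mm_eq (T j : ℕ) : mm T j = 2 ^ uu T (j+1) := by rw [uu_succ]; rfl

theorem uu_lt (hT : 3 ≤ T) (j : ℕ) : uu T j < uu T (j+1) := by
  unfold uu
  exact Nat.pow_lt_pow_right (by omega) (by omega)

theorem uu_mono (hT : 3 ≤ T) : Monotone (uu T) := monotone_nat_of_le_succ (fun j => (uu_lt hT j).le)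

theorem uu_ge (hT : 3 ≤ T) (j : ℕ) : j + 1 ≤ uu T j := by
  induction j with
  | zero => exact uu_pos hT 0
  | succ j ih => have := uu_lt hT j; omega

theorem mm_pos (T j : ℕ) : 0 < mm T j := by unfold mm; positivity
theorem nn_pos (T j : ℕ) : 0 < nn T j := by unfold nn; positivity

theorem mm_double (hT : 3 ≤ T) (j : ℕ) : 2 * mm T j ≤ mm T (j+1) := by
  rw [mm_eq, mm_eq]
  calc 2 * 2 ^ uu T (j+1) = 2 ^ (uu T (j+1) + 1) := by ring
    _ ≤ 2 ^ uu T (j+1+1) := Nat.pow_le_pow_right (by norm_num) (uu_lt hT (j+1))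

theorem sum_mm (hT : 3 ≤ T) (j : ℕ) : ∑ i ∈ Finset.range (j+1), mm T i ≤ 2 * mm T j := by
  induction j with
  | zero => simp; omega
  | succ j ih =>
    rw [Finset.sum_range_succ]
    have := mm_double hT j
    omega

theorem mm_gt (hT : 3 ≤ T) (n : ℕ) : n < mm T n := by
  rw [mm_eq]
  calc n < 2 ^ n := Nat.lt_two_pow_self
    _ ≤ _ := Nat.pow_le_pow_right (by norm_num) (by have := uu_ge hT (n+1); omega)

theorem ss_pos (T j : ℕ) : 0 < ss T j := by unfold ss; positivity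
theorem ss_le_one (T j : ℕ) : ss T j ≤ 1 := by
  unfold ss; exact pow_le_one₀ (by norm_num) (by norm_num)

theorem ss_succ (T j : ℕ) : ss T (j+1) = 1 / (mm T j : ℝ) := by
  unfold ss; rw [mm_eq]; push_cast; rw [one_div_pow]

theorem ss_anti (hT : 3 ≤ T) : Antitone (ss T) := fun a b hab =>
  pow_le_pow_of_le_one (by norm_num) (by norm_num) (uu_mono hT hab)

theorem nn_pow (T j : ℕ) : (nn T j : ℝ) ^ T = mm T j := by
  unfold nn mm
  push_cast
  rw [← pow_mul]; congr 1; ring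

theorem nn_ss (T j : ℕ) : (ss T j) ^ T = 1 / (nn T j : ℝ) := by
  unfold nn ss
  push_cast
  rw [← pow_mul, one_div_pow, mul_comm]

theorem quarter (hT : 3 ≤ T) (j : ℕ) : (nn T j : ℝ) / mm T j ≤ 1 / 4 := by
  have h1 : 4 * nn T j ≤ mm T j := by
    unfold nn mm
    have hu := uu_pos hT j
    calc 4 * 2 ^ (T * uu T j) = 2 ^ (2 + T * uu T j) := by rw [pow_add]; norm_num
      _ ≤ 2 ^ (T ^ 2 * uu T j) := by
        refine Nat.pow_le_pow_right (by norm_num) ?_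
        have h2 : T * uu T j * 3 ≤ T * uu T j * T := Nat.mul_le_mul_left _ hT
        have h3 : 3 * 1 ≤ T * uu T j := Nat.mul_le_mul hT hu
        have h4 : T ^ 2 * uu T j = T * uu T j * T := by ring
        rw [h4]
        omega
  have hm : (0:ℝ) < mm T j := by exact_mod_cast mm_pos T j
  rw [div_le_div_iff₀ hm (by norm_num)]
  have : (4:ℝ) * nn T j ≤ mm T j := by exact_mod_cast h1
  linarith

theorem rr_pos (T j : ℕ) : 0 < rr T j := by
  unfold rr
  have h1 : (0:ℝ) < mm T j := by exact_mod_cast mm_pos T j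
  have h2 : (0:ℝ) < nn T j := by exact_mod_cast nn_pos T j
  positivity

theorem rr_sq (T j : ℕ) : (rr T j) ^ 2 = (nn T j : ℝ) / mm T j := by
  unfold rr
  rw [Real.sq_sqrt (by positivity)]

theorem rr_le_one (hT : 3 ≤ T) (j : ℕ) : rr T j ≤ 1 := by
  have h1 := rr_sq T j
  have h2 := quarter hT j
  have h3 := rr_pos T j
  nlinarith

/-- the exponent -/
noncomputable def bet (T : ℕ) : ℝ := 1 - (T:ℝ)⁻¹

theorem bet_pos (hT : 3 ≤ T) : 0 < bet T := by
  unfold bet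
  have h1 : (3:ℝ) ≤ T := by exact_mod_cast hT
  have h2 : (T:ℝ)⁻¹ ≤ 3⁻¹ := inv_anti₀ (by norm_num) h1
  norm_num at h2 ⊢
  linarith

theorem bet_le (T : ℕ) : bet T ≤ 1 := by
  unfold bet
  have h2 : 0 ≤ (T:ℝ)⁻¹ := by positivity
  linarith

theorem rr_sq' (hT : 3 ≤ T) (j : ℕ) : (rr T j) ^ 2 = (mm T j : ℝ) ^ (-bet T) := by
  rw [rr_sq]
  have h1 : (0:ℝ) < mm T j := by exact_mod_cast mm_pos T j
  have h2 : (0:ℝ) ≤ nn T j := Nat.cast_nonneg _
  have h3 : -bet T = (T:ℝ)⁻¹ - 1 := by unfold bet; ring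
  rw [h3, Real.rpow_sub_one h1.ne']
  congr 1
  conv_rhs => rw [← nn_pow]
  rw [Real.pow_rpow_inv_natCast h2 (by omega)]

theorem sq_le_two_pow {u : ℕ} (hu : 4 ≤ u) : u ^ 2 ≤ 2 ^ u := by
  induction u, hu using Nat.le_induction with
  | base => norm_num
  | succ u hu ih =>
    calc (u+1) ^ 2 = u ^ 2 + 2 * u + 1 := by ring
      _ ≤ u ^ 2 + u ^ 2 := by nlinarith
      _ ≤ 2 ^ u + 2 ^ u := by omega
      _ = 2 ^ (u+1) := by ring

/-- threshold -/
theorem small_R (hT : 3 ≤ T) {n u : ℕ} (hn : 4 * T ^ 4 ≤ n) (hu : 2 ^ u ≤ n) :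
    2 * (T ^ 2 * u) ≤ n := by
  by_cases h : u ≤ 2 * T ^ 2
  · calc 2 * (T ^ 2 * u) ≤ 2 * (T ^ 2 * (2 * T ^ 2)) := by gcongr
      _ = 4 * T ^ 4 := by ring
      _ ≤ n := hn
  · push Not at h
    have h9 : 9 ≤ T ^ 2 := by nlinarith
    have h4 : 4 ≤ u := by omega
    calc 2 * (T ^ 2 * u) = (2 * T ^ 2) * u := by ring
      _ ≤ u * u := Nat.mul_le_mul_right _ h.le
      _ = u ^ 2 := by ring
      _ ≤ 2 ^ u := sq_le_two_pow h4
      _ ≤ n := hu

theorem exists_level (hT : 3 ≤ T) {n : ℕ} (hn : 2 ≤ n) :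
    ∃ j, n < 4 * mm T j ∧ 2 ^ uu T j ≤ n ∧ 2 * ∑ i ∈ Finset.range j, mm T i ≤ n := by
  classical
  have hex : ∃ j, n < 4 * mm T j := ⟨n, by have := mm_gt hT n; omega⟩
  refine ⟨Nat.find hex, Nat.find_spec hex, ?_⟩
  rcases Nat.eq_zero_or_pos (Nat.find hex) with h0 | h0
  · rw [h0]
    simp [uu]
    exact hn
  · obtain ⟨j, hj⟩ : ∃ j, Nat.find hex = j + 1 := ⟨Nat.find hex - 1, by omega⟩
    have h1 : ¬ (n < 4 * mm T j) := Nat.find_min hex (by omega)
    rw [hj]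
    have h2 := sum_mm hT j
    rw [mm_eq] at h1 h2
    have h3 : 0 < 2 ^ uu T (j+1) := by positivity
    constructor
    · omega
    · rw [← mm_eq] at h1 h2
      omega

theorem ran_rate (hT : 3 ≤ T) {n : ℕ} (hn : 4 * T ^ 4 ≤ n) :
    ranErr (ContinuousLinearMap.id ℝ BX) (FS (ss T) (rr T) (mm T)) n
      ≤ ENNReal.ofReal ((512 * (T:ℝ) ^ 2 + 64 * T + 24) * (n:ℝ) ^ (-bet T)) := by
  have h81 : 81 ≤ T ^ 4 := by
    calc 81 = 3 ^ 4 := by norm_num
      _ ≤ T ^ 4 := Nat.pow_le_pow_left hT 4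
  have hn2 : 2 ≤ n := by omega
  obtain ⟨j, h1, h2, h3⟩ := exists_level hT hn2
  set u := uu T j with hu
  have hu1 : 1 ≤ u := uu_pos hT j
  set R := T ^ 2 * u with hR
  have hR0 : 0 < R := by positivity
  have h2R : 2 * R ≤ n := small_R hT hn h2
  set k := n / (2 * R) with hk
  have hk0 : 0 < k := Nat.div_pos h2R (by omega)
  have hk1 : 2 * R * k ≤ n := Nat.mul_div_le n (2 * R)
  have hk2 : n < 2 * R * (k + 1) := Nat.lt_mul_div_succ n (by omega)
  have hk3 : n ≤ 4 * R * k := by nlinarith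
  have hsum : ∑ i ∈ Finset.range j, mm T i + R * k ≤ n := by
    have : 2 * R * k = 2 * (R * k) := by ring
    omega
  have hm0 : (0:ℝ) < mm T j := by exact_mod_cast mm_pos T j
  have hn0 : (0:ℝ) < n := by exact_mod_cast (by omega : 0 < n)
  have hn1 : (1:ℝ) ≤ n := by exact_mod_cast (by omega : 1 ≤ n)
  have hb := ran_bound (σ := ss T) (r := rr T) (m := mm T) (ss_pos T) (rr_pos T) (rr_le_one hT)
    hR0 hk0 hsum (τ := 2 / mm T j) (by positivity) (fun i hi => by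
      have h4 : ss T i ≤ ss T (j+1) := ss_anti hT hi
      rw [ss_succ] at h4
      calc 2 * ss T i ≤ 2 * (1 / (mm T j : ℝ)) := by linarith
        _ = 2 / mm T j := by ring)
  refine hb.trans (ENNReal.ofReal_le_ofReal ?_)
  -- notation
  set q : ℝ := (n:ℝ) ^ (-bet T) with hq
  have hq0 : 0 < q := Real.rpow_pos_of_pos hn0 _
  have hnq : (1:ℝ) / n ≤ q := by
    rw [hq, one_div, ← Real.rpow_neg_one]
    exact Real.rpow_le_rpow_of_exponent_le hn1 (by have := bet_le T; linarith)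
  have hk0' : (0:ℝ) < k := by exact_mod_cast hk0
  have hRr : (R:ℝ) = (T:ℝ) ^ 2 * u := by rw [hR]; push_cast; ring
  have h1k : 1 / (k:ℝ) ≤ 4 * R / n := by
    rw [div_le_div_iff₀ hk0' hn0]
    have : (n:ℝ) ≤ 4 * R * k := by exact_mod_cast hk3
    linarith
  have hm4 : (1:ℝ) / mm T j ≤ 4 / n := by
    rw [div_le_div_iff₀ hm0 hn0]
    have : (n:ℝ) < 4 * mm T j := by exact_mod_cast h1
    linarith
  have hσ0 := ss_pos T j
  have hσ1 := ss_le_one T j
  have hu0 : (1:ℝ) ≤ u := by exact_mod_cast hu1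
  have hσu : ss T j * u ≤ 1 := by
    have h4 : (u:ℝ) ≤ 2 ^ u := by exact_mod_cast (Nat.lt_two_pow_self (n := u)).le
    have h5 : ss T j * 2 ^ u = 1 := by
      show (1/2 : ℝ) ^ u * 2 ^ u = 1
      rw [← mul_pow]; norm_num
    calc ss T j * u ≤ ss T j * 2 ^ u := by gcongr
      _ = 1 := h5
  have hT0 : (0:ℝ) < T := by exact_mod_cast (by omega : 0 < T)
  -- term 1
  have t1 : ss T j * (128 / (k:ℝ)) ≤ 512 * (T:ℝ) ^ 2 * q := by
    calc ss T j * (128 / (k:ℝ)) = 128 * ss T j * (1 / (k:ℝ)) := by ring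
      _ ≤ 128 * ss T j * (4 * R / n) := by gcongr
      _ = 512 * (T:ℝ) ^ 2 * (ss T j * u) * (1 / n) := by rw [hRr]; ring
      _ ≤ 512 * (T:ℝ) ^ 2 * 1 * q := by gcongr
      _ = _ := by ring
  -- term 2
  have hr4 : (rr T j) ^ 2 ≤ 4 * q := by
    rw [rr_sq' hT]
    have h4 : (n:ℝ) / 4 ≤ mm T j := by
      have : (n:ℝ) < 4 * mm T j := by exact_mod_cast h1
      linarith
    calc (mm T j : ℝ) ^ (-bet T) ≤ ((n:ℝ) / 4) ^ (-bet T) :=
          Real.rpow_le_rpow_of_nonpos (by positivity) h4 (by have := bet_pos hT; linarith)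
      _ = 4 ^ (bet T) * q := by
          rw [Real.div_rpow hn0.le (by norm_num), hq, Real.rpow_neg (by norm_num : (0:ℝ) ≤ 4)]
          rw [div_inv_eq_mul]; ring
      _ ≤ 4 ^ (1:ℝ) * q := by
          gcongr
          · norm_num
          · exact bet_le T
      _ = 4 * q := by norm_num
  have t2 : ss T j * (Real.sqrt (128 / k) * rr T j) ≤ 64 * (T:ℝ) * q := by
    have h5 : Real.sqrt (128 / k) * rr T j ≤ 64 * T * u * q := by
      have hrr0 := rr_pos T j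
      refine le_of_sq_le_sq ?_ (by positivity)
      rw [mul_pow, Real.sq_sqrt (by positivity)]
      calc 128 / (k:ℝ) * (rr T j) ^ 2 = 128 * (1 / (k:ℝ)) * (rr T j) ^ 2 := by ring
        _ ≤ 128 * (4 * R / n) * (4 * q) := by gcongr
        _ = 2048 * (T:ℝ) ^ 2 * u * (1 / n) * q := by rw [hRr]; ring
        _ ≤ 2048 * (T:ℝ) ^ 2 * u * q * q := by gcongr
        _ ≤ 4096 * (T:ℝ) ^ 2 * (u * u) * q * q := by
            have : (u:ℝ) ≤ u * u := by nlinarith
            gcongr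
            norm_num
        _ = (64 * T * u * q) ^ 2 := by ring
    calc ss T j * (Real.sqrt (128 / k) * rr T j) ≤ ss T j * (64 * T * u * q) := by gcongr
      _ = 64 * T * (ss T j * u) * q := by ring
      _ ≤ 64 * T * 1 * q := by gcongr
      _ = _ := by ring
  -- term 3
  have t3 : ss T j * (4 * ((mm T j : ℝ) / 4 ^ R)) ≤ 16 * q := by
    have h5 : (mm T j : ℝ) / 4 ^ R = 1 / mm T j := by
      have h6 : (mm T j : ℝ) = 2 ^ R := by
        rw [hR, hu]; unfold mm; push_cast; rfl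
      have h7 : (4:ℝ) ^ R = 2 ^ R * 2 ^ R := by rw [← mul_pow]; norm_num
      rw [h6, h7]
      field_simp
    rw [h5]
    calc ss T j * (4 * (1 / (mm T j : ℝ))) ≤ 1 * (4 * (4 / n)) := by gcongr
      _ = 16 * (1 / n) := by ring
      _ ≤ 16 * q := by gcongr
  -- term 4
  have t4 : 2 / (mm T j : ℝ) ≤ 8 * q := by
    calc 2 / (mm T j : ℝ) = 2 * (1 / (mm T j : ℝ)) := by ring
      _ ≤ 2 * (4 / n) := by gcongr
      _ = 8 * (1 / n) := by ring
      _ ≤ 8 * q := by gcongr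
  calc ss T j * (128 / (k:ℝ) + Real.sqrt (128 / k) * rr T j + 4 * (mm T j / 4 ^ R)) + 2 / mm T j
      = ss T j * (128 / (k:ℝ)) + ss T j * (Real.sqrt (128 / k) * rr T j)
        + ss T j * (4 * ((mm T j : ℝ) / 4 ^ R)) + 2 / mm T j := by ring
    _ ≤ 512 * (T:ℝ) ^ 2 * q + 64 * (T:ℝ) * q + 16 * q + 8 * q := by gcongr
    _ = _ := by ring

theorem ran_trivial (hT : 3 ≤ T) (n : ℕ) :
    ranErr (ContinuousLinearMap.id ℝ BX) (FS (ss T) (rr T) (mm T)) n ≤ ENNReal.ofReal 2 := by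
  refine ran_upper (Ω := Unit) (κ := Empty) (by norm_num) (by simp) (fun _ => Empty.elim)
    (fun _ _ => 0) (fun _ => continuous_const) (fun f hf => ?_)
  simp only [ContinuousLinearMap.id_apply, sub_zero, Finset.univ_unique, Finset.sum_const,
    Finset.card_singleton, one_smul, Fintype.card_unit, Nat.cast_one, one_mul]
  rw [BoundedContinuousFunction.norm_le (by norm_num)]
  rintro ⟨i, l⟩
  rw [Real.norm_eq_abs]
  have h1 := FS_bound (fun i => (ss_pos T i).le) (rr_pos T) (rr_le_one hT) hf i l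
  have h2 := ss_le_one T i
  linarith

theorem ran_rate_ge (hT : 3 ≤ T) : ENNReal.ofReal (bet T)
    ≤ rate (ranErr (ContinuousLinearMap.id ℝ BX) (FS (ss T) (rr T) (mm T))) := by
  refine le_rate (bet_pos hT) ?_
  set N₀ : ℝ := ((4 * T ^ 4 : ℕ) : ℝ) with hN
  have hN0 : 0 ≤ N₀ := Nat.cast_nonneg _
  refine ⟨(512 * (T:ℝ) ^ 2 + 64 * T + 24) + 2 * N₀, by positivity, fun n hn => ?_⟩
  have hn1 : (1:ℝ) ≤ n := by exact_mod_cast hn
  have hn0 : (0:ℝ) < n := by linarith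
  have hq0 : 0 < (n:ℝ) ^ (-bet T) := Real.rpow_pos_of_pos hn0 _
  by_cases h : 4 * T ^ 4 ≤ n
  · refine (ran_rate hT h).trans (ENNReal.ofReal_le_ofReal ?_)
    have : 0 ≤ 2 * N₀ * (n:ℝ) ^ (-bet T) := by positivity
    linarith
  · push Not at h
    refine (ran_trivial hT n).trans (ENNReal.ofReal_le_ofReal ?_)
    have h1 : (n:ℝ) ≤ N₀ := by rw [hN]; exact_mod_cast h.le
    have h2 : (1:ℝ) ≤ N₀ * (n:ℝ) ^ (-bet T) := by
      have h3 : (1:ℝ) = n * (n:ℝ) ^ (-1:ℝ) := by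
        rw [Real.rpow_neg_one, mul_inv_cancel₀ hn0.ne']
      have h4 : (n:ℝ) ^ (-1:ℝ) ≤ (n:ℝ) ^ (-bet T) :=
        Real.rpow_le_rpow_of_exponent_le hn1 (by have := bet_le T; linarith)
      calc (1:ℝ) = n * (n:ℝ) ^ (-1:ℝ) := h3
        _ ≤ N₀ * (n:ℝ) ^ (-bet T) := by gcongr
    have h5 : 0 ≤ (512 * (T:ℝ) ^ 2 + 64 * T + 24) * (n:ℝ) ^ (-bet T) := by positivity
    nlinarith

theorem det_rate_le (hT : 3 ≤ T) :
    rate (detErr (ContinuousLinearMap.id ℝ BX) (FS (ss T) (rr T) (mm T)))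
      ≤ ENNReal.ofReal ((T:ℝ)⁻¹) := by
  have hT0 : (0:ℝ) < T := by exact_mod_cast (by omega : 0 < T)
  refine rate_le (fun α hα hα0 C hC => ?_)
  -- choose j large
  set δ : ℝ := α - (T:ℝ)⁻¹ with hδ
  have hδ0 : 0 < δ := by rw [hδ]; linarith
  have htend : Filter.Tendsto (fun j : ℕ => ((nn T j : ℝ)) ^ δ) Filter.atTop Filter.atTop := by
    refine (tendsto_rpow_atTop hδ0).comp ?_
    refine tendsto_natCast_atTop_atTop.comp ?_
    refine Filter.tendsto_atTop_mono (fun j => ?_) Filter.tendsto_id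
    show j ≤ nn T j
    unfold nn
    calc j ≤ 2 ^ j := (Nat.lt_two_pow_self).le
      _ ≤ 2 ^ (T * uu T j) := by
        refine Nat.pow_le_pow_right (by norm_num) ?_
        have h1 := uu_ge hT j
        nlinarith
  obtain ⟨j, hj⟩ := (htend.eventually (Filter.eventually_gt_atTop (2 * C))).exists
  have hnn0 : (0:ℝ) < nn T j := by exact_mod_cast nn_pos T j
  refine ⟨nn T j, nn_pos T j, ?_⟩
  refine lt_of_lt_of_le ?_ (det_bound (ss_pos T) (mm_pos T j) (rr_sq T j).ge (quarter hT j))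
  rw [ENNReal.ofReal_lt_ofReal_iff (by have := ss_pos T j; positivity)]
  -- ss = nn ^ (-1/T)
  have h1 : ss T j = (nn T j : ℝ) ^ (-(T:ℝ)⁻¹) := by
    have h2 := nn_ss T j
    have h3 : ((ss T j) ^ T) ^ ((T:ℝ)⁻¹) = ss T j :=
      Real.pow_rpow_inv_natCast (ss_pos T j).le (by omega)
    rw [← h3, h2, one_div, Real.inv_rpow hnn0.le, Real.rpow_neg hnn0.le]
  have h2 : (nn T j : ℝ) ^ (-α) * (nn T j : ℝ) ^ δ = ss T j := by
    rw [h1, ← Real.rpow_add hnn0]
    congr 1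
    rw [hδ]; ring
  have h3 : 0 < (nn T j : ℝ) ^ (-α) := Real.rpow_pos_of_pos hnn0 _
  rw [← h2]
  nlinarith

theorem one_le_gain : 1 ≤ gain := by
  have key : ∀ T : ℕ, 3 ≤ T → ENNReal.ofReal (1 - 2 * (T:ℝ)⁻¹) ≤ gain := by
    intro T hT
    refine le_trans ?_ (le_sSup ⟨BX, BX, inferInstance, inferInstance, inferInstance, inferInstance,
      inferInstance, inferInstance, ContinuousLinearMap.id ℝ BX, FS (ss T) (rr T) (mm T),
      FS_convex _ _ _, FS_symm _ _ _, (det_rate_le hT).trans_lt ENNReal.ofReal_lt_top, rfl⟩)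
    calc ENNReal.ofReal (1 - 2 * (T:ℝ)⁻¹) = ENNReal.ofReal (bet T - (T:ℝ)⁻¹) := by
          congr 1; unfold bet; ring
      _ = ENNReal.ofReal (bet T) - ENNReal.ofReal ((T:ℝ)⁻¹) := by
          rw [ENNReal.ofReal_sub _ (by positivity)]
      _ ≤ _ := tsub_le_tsub (ran_rate_ge hT) (det_rate_le hT)
  have hlim : Filter.Tendsto (fun T : ℕ => ENNReal.ofReal (1 - 2 * (T:ℝ)⁻¹)) Filter.atTop
      (nhds (ENNReal.ofReal (1 - 2 * 0))) := by
    refine (ENNReal.continuous_ofReal.tendsto _).comp ?_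
    exact tendsto_const_nhds.sub (tendsto_const_nhds.mul tendsto_inv_atTop_nhds_zero_nat)
  have h1 : ENNReal.ofReal (1 - 2 * 0) = 1 := by norm_num
  rw [h1] at hlim
  refine le_of_tendsto hlim ?_
  filter_upwards [Filter.eventually_ge_atTop 3] with T hT
  exact key T hT

end Pool.Agent.Helper228.Gain
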